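import Pool.Agent.W793.BE.Ex

/-!
# The Big Equation has no solution with values in `[0, 1]` at large density

Negative answer to the second question, in every dimension: for the potentials of the class
`Slow` (bounded, with infinite second moment and at least of the order `|x|^(-2d)` at infinity, and
whose Fourier transform has a zero or is somewhere much smaller than `|k|^(-2)`) there is no
integrable function `u` with `0 ≤ u ≤ 1` that solves the Big Equation when the density is large.
-/

set_option autoImplicit false

open MeasureTheory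
open scoped RealInnerProductSpace

namespace Pool.Agent.Results.MP_ef05c8_mp.BigNoSolution

open Pool.Agent.H532R3.ME Pool.Agent.W793.BE

/-- The class of potentials of the theorem: `v` is bounded, `v x ≥ c (1 + |x|)^(-2d)` with some
`c > 0`, the second moment `∫ |x|² v` is infinite, and there is no `c > 0` with
`|v̂ k| ≥ c |k|² / (1 + |k|²)²` for all `k` (this holds if `v̂` has a zero, or if
`|k|² |v̂ k|` is not bounded below at infinity). -/
structure Slow {d : ℕ} (v : E d → ℝ) : Prop where
  bounded : ∃ B : ℝ, ∀ x, v x ≤ B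
  lower : ∃ c : ℝ, 0 < c ∧ ∀ x, c ≤ v x * (1 + ‖x‖) ^ (2 * d)
  moment : ¬ Integrable (fun x => ‖x‖ ^ 2 * v x)
  fourier : ¬ ∃ c : ℝ, 0 < c ∧ ∀ k : E d, c * ‖k‖ ^ 2 ≤
    ‖∫ x, Complex.exp (-(⟪k, x⟫ : ℝ) * Complex.I) * (v x : ℂ)‖ * (1 + ‖k‖ ^ 2) ^ 2

/-- **The Big Equation has no solution at large density**, in every dimension, for all admissible
potentials of the class `Slow`, and there are continuous radial such potentials. -/
theorem result (d : ℕ) (hd : 1 ≤ d) :
    (∃ v : E d → ℝ, Admissible v ∧ Continuous v ∧ Radial v ∧ Slow v) ∧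
    ∀ v : E d → ℝ, Admissible v → Slow v →
      ∀ m : ℝ, 0 < m → ∃ ρ₀ : ℝ, 0 < ρ₀ ∧ ∀ ρ, ρ₀ ≤ ρ → ¬ ∃ u : E d → ℝ, IsBigSolution m ρ v u := by
  constructor
  · obtain ⟨A, hA, k, hk⟩ := vA_zero (d := d) hd
    refine ⟨vA A, vA_admissible hd hA, vA_continuous A, vA_radial A, ⟨A + 1, vA_le hA⟩,
      ⟨1, one_pos, fun x => ?_⟩, fun h => ?_, ?_⟩
    · have h1 : wt x ≤ vA A x := by
        unfold vA
        have := mul_nonneg hA (vex_bounds x).1
        linarith
      have h2 : (1 : ℝ) ≤ wt x * (1 + ‖x‖) ^ (2 * d) := by
        unfold wt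
        have hx : (1 : ℝ) ≤ 1 + ‖x‖ := by linarith [norm_nonneg x]
        rw [inv_mul_eq_div, le_div_iff₀ (by positivity), one_mul]
        exact pow_le_pow_right₀ hx (by omega)
      exact h2.trans (mul_le_mul_of_nonneg_right h1 (by positivity))
    · apply wt_moment (d := d) hd
      refine h.mono' ?_ ?_
      · exact (by fun_prop : Continuous fun x : E d => ‖x‖ ^ 2).aestronglyMeasurable.mul
          wt_continuous.aestronglyMeasurable
      · filter_upwards with x
        rw [Real.norm_eq_abs, abs_of_nonneg (mul_nonneg (by positivity) (wt_pos x).le)]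
        apply mul_le_mul_of_nonneg_left _ (by positivity)
        unfold vA
        have := mul_nonneg hA (vex_bounds x).1
        linarith
    · rintro ⟨c, hc, h⟩
      have h1 := h k
      rw [← hat_eq, hk, norm_zero, zero_mul] at h1
      have h2 : ‖k‖ = 0 := by
        by_contra h3
        have : 0 < ‖k‖ := lt_of_le_of_ne (norm_nonneg _) (Ne.symm h3)
        have : 0 < c * ‖k‖ ^ 2 := by positivity
        linarith
      have h3 : k = 0 := norm_eq_zero.1 h2
      rw [h3, hat_zero (vA_integrable A)] at hk
      have h4 : ∫ x : E d, vA A x = 0 := by exact_mod_cast hk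
      have h5 : 0 < ∫ x : E d, vA A x := by
        rw [integral_pos_iff_support_of_nonneg (fun x => (vA_pos hA x).le) (vA_integrable A)]
        have : Function.support (vA A : E d → ℝ) = Set.univ := by
          ext x; simp [(vA_pos hA x).ne']
        rw [this]
        exact Measure.measure_univ_pos.2 (NeZero.ne (volume : Measure (E d)))
      linarith
  · intro v hv hs m hm
    obtain ⟨B, hB⟩ := hs.bounded
    obtain ⟨c, hc, hlow⟩ := hs.lower
    have hB' : ∀ x, v x ≤ max B 1 := fun x => (hB x).trans (le_max_left _ _)
    refine none hd (lt_max_of_lt_right one_pos) hc hm hv.integrable hv.nonneg hB' hs.moment hlow ?_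
    intro ε hε
    by_contra hcon
    push Not at hcon
    apply hs.fourier
    refine ⟨ε, hε, fun k => ?_⟩
    have := hcon k
    rw [hat_eq] at this
    exact this.le

end Pool.Agent.Results.MP_ef05c8_mp.BigNoSolution
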